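import Pool.Agent.Q224.BP.Zero

/-!
# The image of product measures under belief propagation is not convex for `q ≥ 4`, `d ≥ 2`

For the antiferromagnetic Potts model with `q ≥ 4` colours and `d ≥ 2` the polytope `F_{A,d}` has
faces on which a product measure would need factors with disjoint supports; their interior points
are not attained by product measures.
-/

set_option autoImplicit false

namespace Pool.Agent.Results.MP_d064d6_lc.NotConvex

open Q224.BP

/-- For `q ≥ 4`, `d ≥ 2` and `0 ≤ β < 1` (with `β > 0` or `q ≥ d + 2`) the set `F^prod_{A,d}` is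
not convex. -/
theorem result : ∀ (q d : ℕ) (β : ℝ), 4 ≤ q → 2 ≤ d → 0 ≤ β → β < 1 → (0 < β ∨ d + 2 ≤ q) →
    ¬ Convex ℝ (Fprod q d β) := by
  intro q d β hq hd h0 h1 h
  rcases eq_or_lt_of_le h0 with rfl | hβ
  · rcases h with h | h
    · exact absurd h (lt_irrefl _)
    · exact not_convex_zero hd h
  · obtain ⟨K, rfl⟩ := Nat.exists_eq_add_of_le' hd
    refine not_convex (K := K) rfl h0 h1 (Or.inl hβ) (c1 := ⟨0, by omega⟩) (c2 := ⟨1, by omega⟩)
      (c3 := ⟨2, by omega⟩) (c4 := ⟨3, by omega⟩) ?_ ?_ ?_ ?_ ?_ ?_ <;>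
    · intro h
      have := congrArg Fin.val h
      simp at this

end Pool.Agent.Results.MP_d064d6_lc.NotConvex
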